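import Pool.Agent.H17.CX.Targets

/-!
# MP_70ba79_ag, THEOREM S (surfaces): the dimensions of the spaces of forms on the component grow
slowly
-/

set_option autoImplicit false

open MvPolynomial SC Pool.Agent.H27.LV
open Pool.Agent.H92.SF Pool.Agent.H3.SF Pool.Agent.H17.SD Pool.Agent.H17.SFG Pool.Agent.H17.CX

namespace Pool.Agent.H78.CNX

section

variable {k σ LL : Type} [Field k] [Field LL] [Algebra k LL]

theorem mem_st (ρ : MvPolynomial σ k →ₐ[k] LL) {t : ℕ} {f : MvPolynomial σ k}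
    (hf : f.IsHomogeneous t) : ρ f ∈ St ρ t :=
  Submodule.mem_map.2 ⟨f, hf, rfl⟩

theorem mul_st (ρ : MvPolynomial σ k →ₐ[k] LL) {s t : ℕ} {f : MvPolynomial σ k}
    (hf : f.IsHomogeneous s) {y : LL} (hy : y ∈ St ρ t) : ρ f * y ∈ St ρ (s + t) := by
  obtain ⟨g, hg, rfl⟩ := Submodule.mem_map.1 hy
  change ρ f * ρ g ∈ _
  rw [← map_mul]
  exact mem_st ρ (hf.mul hg)

theorem fin_st [Fintype σ] (ρ : MvPolynomial σ k →ₐ[k] LL) (t : ℕ) :
    FiniteDimensional k (St ρ t) := by
  have h : Module.Finite k (homogeneousSubmodule σ k t) :=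
    Module.Finite.iff_fg.2 (homogeneousSubmodule_fg σ k t)
  unfold St
  infer_instance

/-- multiples of the two linear forms -/
noncomputable def MM (ρ : MvPolynomial σ k →ₐ[k] LL) (W : Fin 2 → MvPolynomial σ k) (t : ℕ) :
    Submodule k LL :=
  (St ρ t).map (LinearMap.mulLeft k (ρ (W 0))) ⊔ (St ρ t).map (LinearMap.mulLeft k (ρ (W 1)))

theorem mem_MM (ρ : MvPolynomial σ k →ₐ[k] LL) (W : Fin 2 → MvPolynomial σ k) {t : ℕ} (l : Fin 2)
    {y : LL} (hy : y ∈ St ρ t) : ρ (W l) * y ∈ MM ρ W t := by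
  fin_cases l
  · exact Submodule.mem_sup_left (Submodule.mem_map.2 ⟨y, hy, rfl⟩)
  · exact Submodule.mem_sup_right (Submodule.mem_map.2 ⟨y, hy, rfl⟩)

theorem MM_mul (ρ : MvPolynomial σ k →ₐ[k] LL) (W : Fin 2 → MvPolynomial σ k) {s t : ℕ}
    {x y : LL} (hx : x ∈ MM ρ W s) (hy : y ∈ St ρ t) : x * y ∈ MM ρ W (s + t) := by
  obtain ⟨g, hg, rfl⟩ := Submodule.mem_map.1 hy
  obtain ⟨x0, h0, x1, h1, rfl⟩ := Submodule.mem_sup.1 hx
  obtain ⟨z0, hz0, rfl⟩ := Submodule.mem_map.1 h0
  obtain ⟨z1, hz1, rfl⟩ := Submodule.mem_map.1 h1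
  change (ρ (W 0) * z0 + ρ (W 1) * z1) * ρ g ∈ _
  have e : (ρ (W 0) * z0 + ρ (W 1) * z1) * ρ g =
      ρ (W 0) * (ρ g * z0) + ρ (W 1) * (ρ g * z1) := by ring
  rw [e, add_comm s t]
  exact Submodule.add_mem _ (mem_MM ρ W 0 (mul_st ρ hg hz0)) (mem_MM ρ W 1 (mul_st ρ hg hz1))

/-- a monomial as a product -/
theorem mon_split {τ : Type} (d : τ →₀ ℕ) (c : k) (i : τ) (n : ℕ) (h : n ≤ d i) :
    (monomial d c : MvPolynomial τ k) =
      MvPolynomial.X i ^ n * monomial (d - Finsupp.single i n) c := by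
  rw [X_pow_eq_monomial, monomial_mul, one_mul, add_tsub_cancel_of_le]
  exact Finsupp.single_le_iff.2 h

theorem deg_split {τ : Type} (d : τ →₀ ℕ) (i : τ) (n : ℕ) (h : n ≤ d i) :
    n + (d - Finsupp.single i n).degree = d.degree := by
  have e : Finsupp.single i n + (d - Finsupp.single i n) = d :=
    add_tsub_cancel_of_le (Finsupp.single_le_iff.2 h)
  conv_rhs => rw [← e]
  rw [map_add, Finsupp.degree_single]

theorem form_deg {τ : Type} {f : MvPolynomial τ k} {t : ℕ} (hf : f.IsHomogeneous t) {d : τ →₀ ℕ}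
    (hd : d ∈ f.support) : d.degree = t := by
  have h := hf (mem_support_iff.1 hd)
  change Finsupp.weight (fun _ => 1) d = t at h
  rwa [← Finsupp.degree_eq_weight_one] at h

/-- a form of positive degree in the two linear forms -/
theorem form_MM (ρ : MvPolynomial σ k →ₐ[k] LL) (W : Fin 2 → MvPolynomial σ k)
    (hW : ∀ l, (W l).IsHomogeneous 1) {r : ℕ} {a : MvPolynomial (Fin 2) k}
    (ha : a.IsHomogeneous (r + 1)) : ρ (aeval W a) ∈ MM ρ W r := by
  rw [a.as_sum, map_sum, map_sum]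
  refine Submodule.sum_mem _ fun d hd => ?_
  have h1 : d.degree = r + 1 := form_deg ha hd
  have h2 : ∃ i, 1 ≤ d i := by
    by_contra hcon
    push Not at hcon
    have h3 : d = 0 := Finsupp.ext fun i => by have := hcon i; simp; omega
    rw [h3, map_zero] at h1
    omega
  obtain ⟨i, hi⟩ := h2
  rw [mon_split d _ i 1 hi, pow_one, map_mul, map_mul, aeval_X]
  refine mem_MM ρ W i (mem_st ρ ?_)
  have h3 := deg_split d i 1 hi
  have h4 := (isHomogeneous_monomial (d := d - Finsupp.single i 1) (coeff d a) rfl).aeval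
    W hW
  rw [one_mul] at h4
  convert h4 using 1
  omega

/-- homogeneous components of polynomials in the linear forms -/
theorem hc_aeval (W : Fin 2 → MvPolynomial σ k) (hW : ∀ l, (W l).IsHomogeneous 1)
    (a : MvPolynomial (Fin 2) k) (n : ℕ) :
    homogeneousComponent n (aeval W a) = aeval W (homogeneousComponent n a) := by
  have e : aeval W a = ∑ i ∈ Finset.range (a.totalDegree + 1),
      aeval W (homogeneousComponent i a) := by
    rw [← map_sum, sum_homogeneousComponent]
  have h1 : ∀ i, (aeval W (homogeneousComponent i a)).IsHomogeneous i := by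
    intro i
    have h4 := (homogeneousComponent_isHomogeneous i a).aeval W hW
    rwa [one_mul] at h4
  rw [e, map_sum]
  by_cases hr : n ∈ Finset.range (a.totalDegree + 1)
  · rw [Finset.sum_eq_single_of_mem n hr, homogeneousComponent_of_mem (h1 n), if_pos rfl]
    intro i _ hi
    rw [homogeneousComponent_of_mem (h1 i), if_neg (fun h => hi h.symm)]
  · rw [Finset.sum_eq_zero, homogeneousComponent_eq_zero, map_zero]
    · simpa using hr
    · intro i hi
      rw [homogeneousComponent_of_mem (h1 i), if_neg]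
      rintro rfl
      exact hr hi

/-- powers of the coordinates are combinations of the two linear forms -/
theorem pow_MM (Q : Ideal (MvPolynomial σ k)) (ρ : MvPolynomial σ k →ₐ[k] LL)
    (W : Fin 2 → MvPolynomial σ k) (hQ : ∀ f ∈ Q, ∀ d, homogeneousComponent d f ∈ Q)
    (hρ : ∀ f, ρ f = 0 ↔ f ∈ Q) (hW : ∀ l, (W l).IsHomogeneous 1) (i : σ)
    (hi : Itg k (fun l => ρ (W l)) (ρ (MvPolynomial.X i))) :
    ∃ n, ρ (MvPolynomial.X i ^ (n + 1)) ∈ MM ρ W n := by
  obtain ⟨f, hf, hf0⟩ := hi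
  have h1 : ρ (∑ j ∈ Finset.range (f.natDegree + 1), aeval W (f.coeff j) * MvPolynomial.X i ^ j)
      = 0 := by
    rw [Polynomial.eval₂_eq_sum_range] at hf0
    rw [map_sum, ← hf0]
    refine Finset.sum_congr rfl fun j _ => ?_
    rw [map_mul, map_pow]
    congr 1
    change ρ (aeval W (f.coeff j)) = aeval (fun l => ρ (W l)) (f.coeff j)
    rw [← AlgHom.comp_apply]
    congr 1
    ext l
    simp
  have hn : f.natDegree ≠ 0 := by
    intro h0
    rw [h0, zero_add, Finset.sum_range_one, pow_zero, mul_one] at h1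
    have h2 : f.coeff 0 = 1 := by rw [← h0]; exact hf.coeff_natDegree
    rw [h2, map_one, map_one] at h1
    exact one_ne_zero h1
  obtain ⟨n, hn'⟩ := Nat.exists_eq_succ_of_ne_zero hn
  refine ⟨n, ?_⟩
  rw [hn'] at h1
  have h3 := (hρ _).2 (hQ _ ((hρ _).1 h1) (n + 1))
  rw [Finset.sum_range_succ, map_add, map_add] at h3
  have h4 : f.coeff (n + 1) = 1 := by
    have := hf.coeff_natDegree
    rwa [hn'] at this
  rw [h4, map_one, one_mul, homogeneousComponent_of_mem (isHomogeneous_X_pow i (n + 1)),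
    if_pos rfl, map_sum, map_sum] at h3
  rw [eq_neg_of_add_eq_zero_right h3]
  refine Submodule.neg_mem _ (Submodule.sum_mem _ fun j hj => ?_)
  have hj' : j < n + 1 := Finset.mem_range.1 hj
  have h5 := hc_mul (aeval W (f.coeff j)) (MvPolynomial.X i ^ j) (isHomogeneous_X_pow i j)
    (n - j + 1)
  rw [show n - j + 1 + j = n + 1 by omega, hc_aeval W hW] at h5
  rw [h5, map_mul]
  have h6 := MM_mul ρ W (form_MM ρ W hW (r := n - j)
    (homogeneousComponent_isHomogeneous (n - j + 1) (f.coeff j)))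
    (mem_st ρ (isHomogeneous_X_pow i j))
  rwa [show n - j + j = n by omega] at h6

/-- the numerical part -/
theorem num_grow (a : ℕ → ℕ) (N : ℕ) (h : ∀ t, N ≤ t → a (t + 2) + a t ≤ 2 * a (t + 1)) (d : ℕ) :
    ∃ C, ∀ t, a (t + d) ≤ a t + C := by
  set C1 := ∑ i ∈ Finset.range (N + 2), a i with hC1
  have h1 : ∀ t, t ≤ N → a (t + 1) ≤ a t + C1 := by
    intro t ht
    have : a (t + 1) ≤ C1 :=
      Finset.single_le_sum (f := a) (fun i _ => Nat.zero_le _) (Finset.mem_range.2 (by omega))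
    omega
  have h2 : ∀ t, a (N + t + 1) ≤ a (N + t) + C1 := by
    intro t
    induction t with
    | zero => exact h1 N le_rfl
    | succ t ih =>
      have h3 := h (N + t) (by omega)
      have e1 : N + (t + 1) + 1 = N + t + 2 := by ring
      have e2 : N + (t + 1) = N + t + 1 := by ring
      rw [e1, e2]
      omega
  have h4 : ∀ t, a (t + 1) ≤ a t + C1 := by
    intro t
    rcases le_total t N with ht | ht
    · exact h1 t ht
    · obtain ⟨s, rfl⟩ := Nat.exists_eq_add_of_le ht
      exact h2 s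
  refine ⟨d * C1, fun t => ?_⟩
  induction d with
  | zero => simp
  | succ d ih =>
    have h5 := h4 (t + d)
    rw [add_mul, one_mul]
    have e : t + (d + 1) = t + d + 1 := by ring
    rw [e]
    omega

end

theorem pf_FMD : T_FMD := by
  intro k σ LL _ _ _ _ Q ρ W hQ hρ hW hW0 hint d
  classical
  have hfin := fun t => fin_st ρ t
  choose n hn using fun i => pow_MM Q ρ W hQ hρ hW i (hint i)
  set N := ∑ i, (n i + 1) with hN
  have h1 : ∀ t, N ≤ t → St ρ (t + 1) ≤ MM ρ W t := by
    intro t ht y hy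
    obtain ⟨f, hf, rfl⟩ := Submodule.mem_map.1 hy
    change ρ f ∈ _
    rw [f.as_sum, map_sum]
    refine Submodule.sum_mem _ fun m hm => ?_
    have h2 : m.degree = t + 1 := form_deg hf hm
    have h3 : ∃ i, n i + 1 ≤ m i := by
      by_contra hcon
      push Not at hcon
      have h4 : m.degree ≤ N := by
        rw [Finsupp.degree_eq_sum]
        exact Finset.sum_le_sum fun i _ => (hcon i).le
      omega
    obtain ⟨i, hi⟩ := h3
    rw [mon_split m _ i (n i + 1) hi, map_mul]
    have h5 := deg_split m i (n i + 1) hi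
    have h6 := MM_mul ρ W (hn i) (mem_st ρ (isHomogeneous_monomial
      (d := m - Finsupp.single i (n i + 1)) (coeff m f) rfl))
    rwa [show n i + (m - Finsupp.single i (n i + 1)).degree = t by omega] at h6
  have hinj : ∀ l, Function.Injective (LinearMap.mulLeft k (ρ (W l))) := fun l x y hxy =>
    mul_left_cancel₀ (hW0 l) hxy
  refine num_grow (fun t => Module.finrank k (St ρ t)) N (fun t ht => ?_) d
  have h2 : St ρ (t + 2) ≤ MM ρ W (t + 1) := h1 (t + 1) (by omega)
  have hf1 : FiniteDimensional k (MM ρ W (t + 1)) := by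
    have := hfin (t + 1)
    unfold MM
    infer_instance
  have h3 := Submodule.finrank_mono h2
  have := hfin (t + 1)
  have h4 := Submodule.finrank_sup_add_finrank_inf_eq
    ((St ρ (t + 1)).map (LinearMap.mulLeft k (ρ (W 0))))
    ((St ρ (t + 1)).map (LinearMap.mulLeft k (ρ (W 1))))
  rw [← (Submodule.equivMapOfInjective _ (hinj 0) (St ρ (t + 1))).finrank_eq,
    ← (Submodule.equivMapOfInjective _ (hinj 1) (St ρ (t + 1))).finrank_eq] at h4
  have h5 : (St ρ t).map (LinearMap.mulLeft k (ρ (W 0) * ρ (W 1))) ≤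
      (St ρ (t + 1)).map (LinearMap.mulLeft k (ρ (W 0))) ⊓
      (St ρ (t + 1)).map (LinearMap.mulLeft k (ρ (W 1))) := by
    intro y hy
    obtain ⟨x, hx, rfl⟩ := Submodule.mem_map.1 hy
    rw [add_comm t 1]
    refine ⟨Submodule.mem_map.2 ⟨ρ (W 1) * x, mul_st ρ (hW 1) hx, ?_⟩,
      Submodule.mem_map.2 ⟨ρ (W 0) * x, mul_st ρ (hW 0) hx, ?_⟩⟩
    · simp only [LinearMap.mulLeft_apply]
      ring
    · simp only [LinearMap.mulLeft_apply]
      ring
  have hinj2 : Function.Injective (LinearMap.mulLeft k (ρ (W 0) * ρ (W 1))) := fun x y hxy =>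
    mul_left_cancel₀ (mul_ne_zero (hW0 0) (hW0 1)) hxy
  have h6 := Submodule.finrank_mono h5
  rw [← (Submodule.equivMapOfInjective _ hinj2 (St ρ t)).finrank_eq] at h6
  change Module.finrank k (St ρ (t + 2)) + Module.finrank k (St ρ t) ≤
    2 * Module.finrank k (St ρ (t + 1))
  unfold MM at h3
  omega

end Pool.Agent.H78.CNX
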