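import Pool.Agent.H17.CX.Targets

/-!
# MP_70ba79_ag, THEOREM S (surfaces): lower bound for the dimension of the space of forms on the
surface
-/

set_option autoImplicit false

open MvPolynomial SC Pool.Agent.H27.LV
open Pool.Agent.H92.SF Pool.Agent.H3.SF Pool.Agent.H17.SD Pool.Agent.H17.SFG Pool.Agent.H17.CX

namespace Pool.Agent.H78.CNX

theorem rank_map {k V W : Type} [Field k] [AddCommGroup V] [Module k V] [AddCommGroup W]
    [Module k W] (f : V →ₗ[k] W) (p : Submodule k V) [FiniteDimensional k p] :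
    Module.finrank k (p.map f) + Module.finrank k (p ⊓ LinearMap.ker f : Submodule k V) =
      Module.finrank k p := by
  have h := LinearMap.finrank_range_add_finrank_ker (f.domRestrict p)
  rw [LinearMap.range_domRestrict, ← Submodule.finrank_map_subtype_eq, LinearMap.ker_domRestrict,
    Submodule.map_comap_subtype] at h
  exact h

/-- the exponents of the binary monomials of degree `n` -/
noncomputable def bex (n : ℕ) (i : Fin (n + 1)) : Fin 2 →₀ ℕ :=
  Finsupp.single 0 (i : ℕ) + Finsupp.single 1 (n - i)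

theorem bex_deg (n : ℕ) (i : Fin (n + 1)) : (bex n i).degree = n := by
  unfold bex
  rw [map_add, Finsupp.degree_single, Finsupp.degree_single]
  omega

theorem bex_inj (n : ℕ) : Function.Injective (bex n) := by
  intro i j h
  have h1 := DFunLike.congr_fun h 0
  simpa [bex, Fin.ext_iff] using h1

theorem pf_PLB : T_PLB := by
  intro k F σ LL _ _ _ _ _ _ X m G Q Q' ρ h dh L hG hG0 hρ hkQ hkQ' hQ' hGQ hGQ' hh hhQ hhQ' hL hLP
    t ht
  classical
  set T := t + m with hT
  set H := homogeneousSubmodule σ k T with hH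
  have hHf : FiniteDimensional k H := Module.Finite.iff_fg.2 (homogeneousSubmodule_fg σ k T)
  set A : MvPolynomial σ k →ₗ[k] F := (aeval X : MvPolynomial σ k →ₐ[k] F).toLinearMap with hA
  set HQ : Submodule k (MvPolynomial σ k) := H ⊓ LinearMap.ker ρ.toLinearMap with hHQ
  have hQf : FiniteDimensional k HQ := Submodule.finiteDimensional_of_le (S₂ := H) inf_le_left
  set K := HQ.map A with hK
  -- dimension formula
  have e1 := rank_map A H
  have e2 := rank_map ρ.toLinearMap H
  have e3 := rank_map A HQ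
  have e4 : HQ ⊓ LinearMap.ker A = H ⊓ LinearMap.ker A := by
    rw [hHQ, inf_assoc]
    congr 1
    refine inf_eq_right.2 fun f hf => ?_
    exact (hρ f).2 (hkQ f hf)
  rw [e4, ← hK] at e3
  rw [← hHQ] at e2
  -- first subspace
  set K1 := (Pt (k := k) X t).map (LinearMap.mulLeft k (aeval X G)) with hK1
  have hinj1 : Function.Injective (LinearMap.mulLeft k (aeval X G)) := fun x y hxy =>
    mul_left_cancel₀ hG0 hxy
  have hK1K : K1 ≤ K := by
    intro y hy
    obtain ⟨x, hx, rfl⟩ := Submodule.mem_map.1 hy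
    obtain ⟨f, hf, rfl⟩ := Submodule.mem_map.1 hx
    refine Submodule.mem_map.2 ⟨G * f, ⟨?_, ?_⟩, ?_⟩
    · have h1 := hG.mul hf
      rwa [add_comm m t] at h1
    · exact (hρ _).2 (Ideal.mul_mem_right _ _ hGQ)
    · exact map_mul (aeval X) G f
  -- second subspace
  set φ : MvPolynomial (Fin 2) k →ₗ[k] F := A ∘ₗ LinearMap.mulLeft k h ∘ₗ
    (aeval L : MvPolynomial (Fin 2) k →ₐ[k] MvPolynomial σ k).toLinearMap with hφ
  have hφ0 : ∀ R : MvPolynomial (Fin 2) k, h * aeval L R ∈ Q' → R = 0 := by
    intro R hR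
    by_contra hne
    rcases hQ'.mem_or_mem hR with h1 | h1
    · exact hhQ' h1
    · exact hLP R hne h1
  have hφinj : Function.Injective φ := by
    rw [← LinearMap.ker_eq_bot, LinearMap.ker_eq_bot']
    intro R hR
    exact hφ0 R (hkQ' _ hR)
  set n := T - dh with hn
  set v : Fin (n + 1) → F := fun i => φ (monomial (bex n i) 1) with hv
  have hvi : LinearIndependent k v := by
    have h1 := (basisMonomials (Fin 2) k).linearIndependent.comp (bex n) (bex_inj n)
    have h2 := h1.map' φ (LinearMap.ker_eq_bot.2 hφinj)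
    have h3 : (⇑φ ∘ ⇑(basisMonomials (Fin 2) k) ∘ bex n) = v := by
      funext i
      simp [hv]
    rwa [h3] at h2
  set K2 := Submodule.span k (Set.range v) with hK2
  have hK2f : Module.finrank k K2 = n + 1 := by
    rw [hK2, finrank_span_eq_card hvi, Fintype.card_fin]
  have hK2K : K2 ≤ K := by
    refine Submodule.span_le.2 ?_
    rintro x ⟨i, rfl⟩
    refine Submodule.mem_map.2 ⟨h * aeval L (monomial (bex n i) 1), ⟨?_, ?_⟩, rfl⟩
    · have h1 := (isHomogeneous_monomial (d := bex n i) (1 : k) rfl).aeval L hL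
      rw [one_mul, bex_deg] at h1
      have h2 := hh.mul h1
      rwa [show dh + n = T by omega] at h2
    · exact (hρ _).2 (Ideal.mul_mem_right _ _ hhQ)
  have hdis : K1 ⊓ K2 = ⊥ := by
    rw [eq_bot_iff]
    rintro x ⟨hx1, hx2⟩
    obtain ⟨y, hy, rfl⟩ := Submodule.mem_map.1 hx1
    obtain ⟨f, hf, rfl⟩ := Submodule.mem_map.1 hy
    have h1 : K2 ≤ LinearMap.range φ := by
      refine Submodule.span_le.2 ?_
      rintro x ⟨i, rfl⟩
      exact ⟨_, rfl⟩
    obtain ⟨R, hR⟩ := h1 hx2
    have h2 : aeval X (h * aeval L R - G * f) = 0 := by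
      rw [map_sub, map_mul (aeval X) G f, sub_eq_zero]
      exact hR
    have h3 : h * aeval L R ∈ Q' := by
      have h4 := Ideal.add_mem _ (hkQ' _ h2) (Ideal.mul_mem_right f _ hGQ')
      rwa [sub_add_cancel] at h4
    rw [Submodule.mem_bot, ← hR, hφ0 R h3, map_zero]
  have hKf : FiniteDimensional k K := by
    rw [hK]
    infer_instance
  have hK1f : FiniteDimensional k K1 := Submodule.finiteDimensional_of_le hK1K
  have hK2f' : FiniteDimensional k K2 := Submodule.finiteDimensional_of_le hK2K
  have e5 := Submodule.finrank_sup_add_finrank_inf_eq K1 K2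
  rw [hdis, finrank_bot, hK2f] at e5
  have e6 := Submodule.finrank_mono (sup_le hK1K hK2K)
  have e7 : Module.finrank k K1 = Module.finrank k (Pt (k := k) X t) :=
    (Submodule.equivMapOfInjective _ hinj1 (Pt (k := k) X t)).finrank_eq.symm
  change Module.finrank k (Pt (k := k) X t) + Module.finrank k (H.map ρ.toLinearMap) +
    (T - dh + 1) ≤ Module.finrank k (H.map A)
  omega

end Pool.Agent.H78.CNX
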